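import Pool.Agent.H13.SSep

open TopologicalSpace

namespace Pool.Agent.Results.MP_656a26_gt.FreeNot

/-- Strong separability of a topological group. -/
def SSeparable (G : Type) [Group G] (t : TopologicalSpace G) : Prop :=
  ∀ (H : Type) [TopologicalSpace H] [Group H] [IsTopologicalGroup H] [T2Space H],
    (∀ K : Subgroup H, IsClosed (K : Set H) → SeparableSpace K) →
    ∀ L : Subgroup (G × H), IsClosed (L : Set (G × H)) → SeparableSpace L

/-- The group topology `t` on the abstract free group restricts to the Euclidean topology. -/
def Restricts (t : GroupTopology (FreeGroup unitInterval)) : Prop :=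
  TopologicalSpace.induced FreeGroup.of t.toTopologicalSpace =
    (inferInstance : TopologicalSpace unitInterval)

/-- `t` is the finest group topology restricting to the Euclidean topology (Markov). -/
def IsMarkov (t : GroupTopology (FreeGroup unitInterval)) : Prop :=
  Restricts t ∧ ∀ t' : GroupTopology (FreeGroup unitInterval), Restricts t' →
    ∀ U, t'.toTopologicalSpace.IsOpen U → t.toTopologicalSpace.IsOpen U

noncomputable def f : FreeGroup unitInterval →* Multiplicative ℝ :=
  FreeGroup.lift fun x => Multiplicative.ofAdd (x : ℝ)

lemma f_surj : Function.Surjective f := by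
  intro y
  refine ⟨FreeGroup.of 1 ^ ⌊y.toAdd⌋ * FreeGroup.of ⟨Int.fract y.toAdd, Int.fract_nonneg _,
    (Int.fract_lt_one _).le⟩, ?_⟩
  apply Multiplicative.toAdd.injective
  simp [f]

noncomputable def tf : GroupTopology (FreeGroup unitInterval) where
  toTopologicalSpace := TopologicalSpace.induced f inferInstance
  toIsTopologicalGroup := topologicalGroup_induced f

lemma tf_restricts : Restricts tf := by
  unfold Restricts tf
  simp only [induced_compose]
  have : (f ∘ FreeGroup.of) = fun x : unitInterval => Multiplicative.ofAdd (x : ℝ) := by
    funext x; simp [f]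
  rw [this]; rfl

lemma of_le (t : GroupTopology (FreeGroup unitInterval)) (h : t ≤ tf) :
    ¬ SSeparable (FreeGroup unitInterval) t.toTopologicalSpace := by
  intro hS
  let _ := t.toTopologicalSpace
  obtain ⟨H, _, _, _, _, hH, L, hL, hn⟩ := Pool.Agent.H13.SSep.main (FreeGroup unitInterval) f
    (continuous_iff_le_induced.2 h) f_surj
  exact hn (hS H hH L hL)

theorem result : (∃ t, IsMarkov t) ∧
    ∀ t, IsMarkov t → ¬ SSeparable (FreeGroup unitInterval) t.toTopologicalSpace := by
  have key : ∀ t' : GroupTopology (FreeGroup unitInterval), Restricts t' →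
      GroupTopology.coinduced (FreeGroup.of : unitInterval → _) ≤ t' := by
    intro t' ht'
    refine sInf_le ?_
    simp only [Set.mem_ofPred_eq]
    rw [coinduced_le_iff_le_induced]
    exact ht'.ge
  refine ⟨⟨GroupTopology.coinduced FreeGroup.of, ?_, key⟩,
    fun t h => of_le t (h.2 tf tf_restricts)⟩
  apply le_antisymm
  · rw [← tf_restricts]
    exact induced_mono (key tf tf_restricts)
  · exact continuous_iff_le_induced.1 (GroupTopology.coinduced_continuous _)

end Pool.Agent.Results.MP_656a26_gt.FreeNot
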